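import Mathlib

set_option autoImplicit false

open Polynomial Matrix

namespace Pool.Agent.Results.MP_ad0c0d_al.UnitInvarianceFails

/-- A commutative finite chain ring: a finite nontrivial commutative ring whose ideals are
totally ordered by inclusion. -/
def IsFiniteChainRing (R : Type*) [CommRing R] : Prop :=
  Finite R ∧ Nontrivial R ∧ ∀ I J : Ideal R, I ≤ J ∨ J ≤ I

/-- The circulant matrix whose first row is `(a 0, a 1, ..., a (n-1))`, each further row being the
cyclic shift of the previous one by one place to the right. -/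
def cir {R : Type*} {n : ℕ} (a : Fin n → R) : Matrix (Fin n) (Fin n) R :=
  Matrix.of fun i j => a (j - i)

/-- `c_n(R,a)`: the number of `n × n` circulant matrices over `R` with determinant `a`. -/
noncomputable def circCount (R : Type*) [CommRing R] (n : ℕ) (a : R) : ℕ :=
  Nat.card {v : Fin n → R // (cir v).det = a}

/-- the ring `K[X]/(X^e)` -/
abbrev TruncRing (K : Type*) [Field K] (e : ℕ) : Type _ := K[X] ⧸ Ideal.span {(X : K[X]) ^ e}

/-- the class of `X` in `K[X]/(X^e)` -/
noncomputable abbrev gam (K : Type*) [Field K] (e : ℕ) : TruncRing K e :=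
  Ideal.Quotient.mk (Ideal.span {(X : K[X]) ^ e}) X

section circ

variable {K : Type*} [Field K] {n : ℕ}

lemma cir_map {R S : Type*} [CommRing R] [CommRing S] (f : R →+* S) (v : Fin n → R) :
    (cir v).map f = cir (fun i => f (v i)) := rfl

lemma trace_inv_mul [NeZero n] (hn : (n : K) = 0) (a b : Fin n → K) :
    trace ((cir a)⁻¹ * cir b) = 0 := by
  have h1 : ∀ (v : Fin n → K) (k : Fin n),
      (cir v).submatrix (Equiv.addRight k) (Equiv.addRight k) = cir v := by
    intro v k
    ext i j
    simp [cir, Matrix.submatrix_apply]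
  have h2 : ∀ k : Fin n, ((cir a)⁻¹ * cir b).submatrix (Equiv.addRight k) (Equiv.addRight k)
      = (cir a)⁻¹ * cir b := by
    intro k
    have h3 : ((cir a)⁻¹).submatrix (Equiv.addRight k) (Equiv.addRight k) = (cir a)⁻¹ := by
      conv_rhs => rw [← h1 a k]
      rw [Matrix.inv_submatrix_equiv]
    rw [← Matrix.submatrix_mul_equiv (cir a)⁻¹ (cir b) _ (Equiv.addRight k) _, h3, h1 b k]
  have h4 : ∀ k : Fin n, ((cir a)⁻¹ * cir b) k k = ((cir a)⁻¹ * cir b) 0 0 := by
    intro k
    have := congrFun (congrFun (h2 k) 0) 0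
    simpa [Matrix.submatrix_apply] using this
  have h5 : trace ((cir a)⁻¹ * cir b) = ∑ _k : Fin n, ((cir a)⁻¹ * cir b) 0 0 := by
    unfold Matrix.trace
    exact Finset.sum_congr rfl (fun k _ => h4 k)
  rw [h5]
  simp [hn]

open TrivSqZeroExt in
/-- Over the dual numbers of a field in which `n = 0`, a circulant `n × n` matrix whose
determinant has constant term `1` has determinant exactly `1`. -/
lemma det_dual [NeZero n] (hn : (n : K) = 0) (w : Fin n → DualNumber K)
    (h1 : fst (cir w).det = 1) : (cir w).det = 1 := by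
  classical
  set ι : K →+* DualNumber K := inlHom K K with hι
  set a : Fin n → K := fun i => fst (w i) with ha
  set b : Fin n → K := fun i => snd (w i) with hb
  have hfst : ∀ v : Fin n → DualNumber K,
      fst (cir v).det = (cir fun i => fst (v i)).det := by
    intro v
    exact (TrivSqZeroExt.fstHom K K K).toRingHom.map_det (cir v)
  have hdetA : (cir a).det = 1 := by rw [← h1, hfst w]
  have hU : IsUnit (cir a).det := by rw [hdetA]; exact isUnit_one
  have hw : cir w = (cir a).map ι *
      (1 + (DualNumber.eps : DualNumber K) • ((cir a)⁻¹ * cir b).map ι) := by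
    rw [Matrix.mul_add, Matrix.mul_one, Matrix.mul_smul, ← Matrix.map_mul, ← Matrix.mul_assoc,
      Matrix.mul_nonsing_inv _ hU, Matrix.one_mul]
    ext i j
    · simp [cir, ι, a, b]
    · simp [cir, ι, a, b]
  rw [hw, Matrix.det_mul, Matrix.det_one_add_smul]
  have h3 : trace (((cir a)⁻¹ * cir b).map ι) = 0 := by
    have h5 : trace (((cir a)⁻¹ * cir b).map ι) = ι (trace ((cir a)⁻¹ * cir b)) := by
      unfold Matrix.trace
      rw [map_sum]
      rfl
    rw [h5, trace_inv_mul hn, map_zero]
  have h4 : ((cir a).map ι).det = 1 := by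
    have := ι.map_det (cir a)
    rw [hdetA, map_one] at this
    simpa using this.symm
  rw [h3, h4]
  simp [DualNumber.eps_pow_two]

end circ

section ring

variable (K : Type*) [Field K]

/-- the map `K[X]/(X^e) → K[ε]`, `X ↦ ε`, for `e ≥ 2` -/
noncomputable def toDual (e : ℕ) (he : 2 ≤ e) : TruncRing K e →+* DualNumber K :=
  Ideal.Quotient.lift _ (Polynomial.aeval (DualNumber.eps : DualNumber K)).toRingHom (by
    intro a ha
    rw [Ideal.mem_span_singleton] at ha
    obtain ⟨b, rfl⟩ := ha
    have h2 : (DualNumber.eps : DualNumber K) ^ e = 0 := by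
      obtain ⟨k, rfl⟩ := Nat.exists_eq_add_of_le he
      rw [pow_add, DualNumber.eps_pow_two, zero_mul]
    simp [h2])

lemma toDual_gam (e : ℕ) (he : 2 ≤ e) : toDual K e he (gam K e) = DualNumber.eps := by
  simp [toDual, gam]

lemma gam_pow_self (e : ℕ) : gam K e ^ e = 0 := by
  rw [← map_pow, Ideal.Quotient.eq_zero_iff_mem]
  exact Ideal.mem_span_singleton_self _

lemma gam_pow_ne_zero (e : ℕ) (he : 1 ≤ e) : gam K e ^ (e - 1) ≠ 0 := by
  rw [← map_pow, Ne, Ideal.Quotient.eq_zero_iff_mem, Ideal.mem_span_singleton,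
    pow_dvd_pow_iff X_ne_zero not_isUnit_X]
  omega

lemma isUnit_one_add_gam (e : ℕ) : IsUnit (1 + gam K e) := by
  have h : IsNilpotent (gam K e) := ⟨e, gam_pow_self K e⟩
  exact h.isUnit_one_add

/-- every ideal of `K[X]/(X^e)` is generated by a power of the class of `X`. -/
lemma ideal_eq (e : ℕ) (I : Ideal (TruncRing K e)) : ∃ k ≤ e, I = Ideal.span {gam K e ^ k} := by
  set π := Ideal.Quotient.mk (Ideal.span {(X : K[X]) ^ e}) with hπ
  have hs : Function.Surjective π := Ideal.Quotient.mk_surjective
  obtain ⟨g, hg⟩ : ∃ g, I.comap π = Ideal.span {g} :=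
    (IsPrincipalIdealRing.principal (I.comap π)).principal
  have h1 : (X : K[X]) ^ e ∈ I.comap π := by
    rw [Ideal.mem_comap]
    have : π (X ^ e) = 0 := by
      rw [Ideal.Quotient.eq_zero_iff_mem]
      exact Ideal.mem_span_singleton_self _
    rw [this]
    exact I.zero_mem
  rw [hg, Ideal.mem_span_singleton] at h1
  obtain ⟨k, hk, hass⟩ := (dvd_prime_pow prime_X e).1 h1
  refine ⟨k, hk, ?_⟩
  have h2 : I = (I.comap π).map π := (Ideal.map_comap_of_surjective π hs I).symm
  rw [h2, hg, Ideal.span_singleton_eq_span_singleton.2 hass, Ideal.map_span, Set.image_singleton,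
    map_pow]

lemma isFiniteChainRing [Finite K] (e : ℕ) (he : 1 ≤ e) : IsFiniteChainRing (TruncRing K e) := by
  refine ⟨?_, ?_, ?_⟩
  · have : Module.Finite K (TruncRing K e) := by
      have := (Polynomial.monic_X_pow (R := K) e).finite_quotient
      exact this
    exact Module.finite_of_finite K
  · refine ⟨1, 0, ?_⟩
    intro h
    have := gam_pow_ne_zero K e he
    apply this
    rw [← mul_one (gam K e ^ (e - 1)), h, mul_zero]
  · intro I J
    obtain ⟨k, -, rfl⟩ := ideal_eq K e I
    obtain ⟨l, -, rfl⟩ := ideal_eq K e J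
    rcases le_total k l with h | h
    · right
      rw [Ideal.span_singleton_le_span_singleton]
      exact pow_dvd_pow _ h
    · left
      rw [Ideal.span_singleton_le_span_singleton]
      exact pow_dvd_pow _ h

lemma isMaximal_iff [Finite K] (e : ℕ) (he : 1 ≤ e) (I : Ideal (TruncRing K e)) :
    I.IsMaximal ↔ I = Ideal.span {gam K e} := by
  have hnt : Nontrivial (TruncRing K e) := (isFiniteChainRing K e he).2.1
  have hnu : ¬ IsUnit (gam K e) := by
    intro h
    have h1 : IsUnit (gam K e ^ e) := h.pow e
    rw [gam_pow_self] at h1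
    exact not_isUnit_zero h1
  have key : ∀ I : Ideal (TruncRing K e), I ≠ ⊤ → I ≤ Ideal.span {gam K e} := by
    intro I hI
    obtain ⟨k, -, rfl⟩ := ideal_eq K e I
    rw [Ideal.span_singleton_le_span_singleton]
    apply dvd_pow_self
    rintro rfl
    apply hI
    simp
  have hne : Ideal.span {gam K e} ≠ ⊤ := by
    rw [Ne, Ideal.span_singleton_eq_top]
    exact hnu
  constructor
  · intro h
    exact h.eq_of_le hne (key I h.ne_top)
  · rintro rfl
    rw [Ideal.isMaximal_def]
    refine ⟨hne, fun J hJ => ?_⟩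
    by_contra hJt
    exact absurd (key J hJt) (not_le_of_gt hJ)

end ring

/-- **Unit invariance of circulant determinant counts fails.**  For every prime `p`, every finite
field `K` of characteristic `p`, every `n ≥ 1` divisible by `p` and every `e ≥ 2`, the ring
`R = K[X]/(X^e)` is a commutative finite chain ring of nilpotency index `e`, whose maximal ideal is
generated by the class `γ` of `X`, and `b = 1 + γ` is a unit of `R` with
`c_n(R, γ^0) ≠ c_n(R, b γ^0)`: the left side is positive, the right side is zero. -/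
theorem result (p : ℕ) (_hp : p.Prime) (K : Type) [Field K] [Finite K] [CharP K p]
    (n : ℕ) (hn : 0 < n) (hpn : p ∣ n) (e : ℕ) (he : 2 ≤ e) :
    IsFiniteChainRing (TruncRing K e) ∧
    (∀ I : Ideal (TruncRing K e), I.IsMaximal ↔ I = Ideal.span {gam K e}) ∧
    gam K e ^ e = 0 ∧ gam K e ^ (e - 1) ≠ 0 ∧
    ∃ b : (TruncRing K e)ˣ, (b : TruncRing K e) = 1 + gam K e ∧
      0 < circCount (TruncRing K e) n (gam K e ^ 0) ∧
      circCount (TruncRing K e) n (b * gam K e ^ 0) = 0 := by
  have he1 : 1 ≤ e := by omega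
  refine ⟨isFiniteChainRing K e he1, isMaximal_iff K e he1, gam_pow_self K e,
    gam_pow_ne_zero K e he1, (isUnit_one_add_gam K e).unit, rfl, ?_, ?_⟩
  · have hfin : Finite (TruncRing K e) := (isFiniteChainRing K e he1).1
    have : NeZero n := ⟨hn.ne'⟩
    unfold circCount
    rw [Nat.card_pos_iff]
    refine ⟨⟨⟨fun i => if i = 0 then 1 else 0, ?_⟩⟩, inferInstance⟩
    have : cir (fun i : Fin n => if i = 0 then (1 : TruncRing K e) else 0) = 1 := by
      ext i j
      simp only [cir, Matrix.of_apply, Matrix.one_apply, sub_eq_zero]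
      by_cases h : i = j
      · simp [h]
      · rw [if_neg h, if_neg (Ne.symm h)]
    rw [this, Matrix.det_one, pow_zero]
  · have : NeZero n := ⟨hn.ne'⟩
    have hnK : (n : K) = 0 := (CharP.cast_eq_zero_iff K p n).2 hpn
    unfold circCount
    rw [Nat.card_eq_zero]
    left
    constructor
    rintro ⟨v, hv⟩
    rw [pow_zero, mul_one, IsUnit.unit_spec] at hv
    have h1 : (cir fun i => toDual K e he (v i)).det = 1 + DualNumber.eps := by
      rw [← cir_map, ← RingHom.mapMatrix_apply, ← RingHom.map_det, hv, map_add, map_one,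
        toDual_gam]
    have h2 := det_dual hnK (fun i => toDual K e he (v i)) (by rw [h1]; simp)
    rw [h1] at h2
    have h3 := congrArg TrivSqZeroExt.snd h2
    simp at h3

end Pool.Agent.Results.MP_ad0c0d_al.UnitInvarianceFails
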